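import Pool.Agent.H487Z.Z3

set_option autoImplicit false

open Pool.Agent.H487Z

/-- There is a connected, locally finite graph, roughly isometric to `ℤ³`, on which the greedy
random walk with the uniform rule returns to its starting vertex infinitely often almost surely. -/
theorem Pool.Agent.Results.MP_b2ff63_pr.ARecurrentExample.result :
    ∃ (V : Type) (G : SimpleGraph V) (v₀ : V),
      G.Connected ∧ (∀ v, (G.neighborSet v).Finite) ∧ RoughlyIsometricZ3 G ∧
      GRWRecurrent G v₀ :=
  z3_example
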